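import Mathlib

/-!
Traces of idempotent matrices over local rings, used in VW-A1 and VW-A3 (MP_34d092_nt).
-/

namespace Pool.Agent.Helper14.VW

open Matrix Module

theorem isLocalRing_zmod (p : ℕ) [Fact p.Prime] {s : ℕ} (hs : s ≠ 0) :
    IsLocalRing (ZMod (p ^ s)) := by
  have h1 : 1 < p ^ s := Nat.one_lt_pow hs (Fact.out : p.Prime).one_lt
  have : Fact (1 < p ^ s) := ⟨h1⟩
  exact IsLocalRing.of_surjective' (PadicInt.toZModPow (p := p) s)
    (ZMod.ringHom_surjective _)

/-- the trace of an idempotent matrix over a local ring is its rank -/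
theorem idem_trace {R : Type*} [CommRing R] [IsLocalRing R] {ι : Type*} [Fintype ι]
    [DecidableEq ι] (A : Matrix ι ι R) (hA : A * A = A) :
    ∃ r ≤ Fintype.card ι, A.trace = (r : R) ∧ (r = 0 → A = 0) := by
  set f : (ι → R) →ₗ[R] (ι → R) := A.toLin' with hf
  have hff : ∀ x, f (f x) = f x := by
    intro x
    rw [hf, ← LinearMap.comp_apply, ← Matrix.toLin'_mul, hA]
  have hproj : LinearMap.IsProj (LinearMap.range f) f :=
    ⟨fun x => ⟨x, rfl⟩, by rintro _ ⟨x, rfl⟩; exact hff x⟩
  set g : (ι → R) →ₗ[R] (ι → R) := LinearMap.id - f with hg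
  have hm : ∀ x, g x ∈ LinearMap.ker f := by
    intro x
    rw [LinearMap.mem_ker, hg, LinearMap.sub_apply, map_sub, LinearMap.id_apply, hff, sub_self]
  have p1 : Module.Projective R (LinearMap.range f) := by
    refine Module.Projective.of_split (LinearMap.range f).subtype f.rangeRestrict ?_
    refine LinearMap.ext fun y => ?_
    obtain ⟨_, x, rfl⟩ := y
    apply Subtype.ext
    exact hff x
  have h2 : (g.codRestrict (LinearMap.ker f) hm).comp
      (LinearMap.ker f).subtype = LinearMap.id := by
    refine LinearMap.ext fun y => ?_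
    obtain ⟨x, hx⟩ := y
    apply Subtype.ext
    rw [LinearMap.mem_ker] at hx
    simp [hg, hx]
  have p2 : Module.Projective R (LinearMap.ker f) :=
    Module.Projective.of_split (LinearMap.ker f).subtype _ h2
  have f2 : Module.Finite R (LinearMap.ker f) := by
    refine Module.Finite.of_surjective (g.codRestrict (LinearMap.ker f) hm) ?_
    intro y
    exact ⟨y.1, LinearMap.congr_fun h2 y⟩
  have g1 : Module.Free R (LinearMap.range f) := Module.free_of_flat_of_isLocalRing
  have g2 : Module.Free R (LinearMap.ker f) := Module.free_of_flat_of_isLocalRing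
  have h1 := hproj.trace
  rw [hf, Matrix.trace_toLin'_eq] at h1
  refine ⟨finrank R (LinearMap.range f), ?_, h1, fun h0 => ?_⟩
  · have := Submodule.finrank_le (LinearMap.range f)
    rwa [Module.finrank_fintype_fun_eq_card] at this
  · have h3 := (finrank_eq_zero_iff_of_free R (LinearMap.range f)).1 h0
    have h4 : f = 0 := by
      rw [← LinearMap.range_eq_bot]
      exact (Submodule.subsingleton_iff_eq_bot).1 h3
    rw [hf] at h4
    exact (LinearEquiv.map_eq_zero_iff _).1 h4

/-- an idempotent matrix of size less than `p ^ s` over `ZMod (p ^ s)` whose trace is zero is zero -/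
theorem idem_eq_zero (p : ℕ) [Fact p.Prime] {s : ℕ} {ι : Type*} [Fintype ι] [DecidableEq ι]
    (hι : Fintype.card ι < p ^ s) (A : Matrix ι ι (ZMod (p ^ s))) (hA : A * A = A)
    (ht : A.trace = 0) : A = 0 := by
  rcases Nat.eq_zero_or_pos s with rfl | hs
  · have : Subsingleton (ZMod (p ^ 0)) := by
      rw [pow_zero]; infer_instance
    exact Subsingleton.elim _ _
  have := isLocalRing_zmod p hs.ne'
  obtain ⟨r, hr, h1, h2⟩ := idem_trace A hA
  apply h2
  rw [ht] at h1
  exact Nat.eq_zero_of_dvd_of_lt ((ZMod.natCast_eq_zero_iff _ _).1 h1.symm) (lt_of_le_of_lt hr hι)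

end Pool.Agent.Helper14.VW
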