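import Mathlib
import Pool.Agent.Helper12.VW.Defs
import Pool.Agent.Helper14.VW.Trace

/-!
VW-A1 and VW-A3 (MP_34d092_nt): the exponent of a prime in the discriminant.
-/

open NumberField Ideal Module

namespace Pool.Agent.Helper12.VW

section

variable (K : Type) [Field K] [NumberField K] (p : ℕ)

/-- the key lemma: if `(p) = P ^ e Q` with coprime `P`, `Q` and `p ^ s` exceeds the degree then
`P ^ (e s)` does not divide the different -/
theorem a1_not_dvd [Fact p.Prime] {s : ℕ} (hs : Module.finrank ℚ K < p ^ s)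
    (P Q : Ideal (𝓞 K)) (e : ℕ) (he : e ≠ 0) (hPQ : IsCoprime P Q)
    (hP : P ^ e * Q = span {(p : 𝓞 K)}) (hP1 : P ≠ ⊤) :
    ¬ P ^ (e * s) ∣ differentIdeal ℤ (𝓞 K) := by
  have hs0 : s ≠ 0 := by
    rintro rfl
    rw [pow_zero] at hs
    have := Module.finrank_pos (R := ℚ) (M := K)
    omega
  have hmul : P ^ (e * s) * Q ^ s = span {((p : 𝓞 K)) ^ s} := by
    rw [pow_mul, ← mul_pow, hP, span_singleton_pow]
  have hcop : IsCoprime (P ^ (e * s)) (Q ^ s) := hPQ.pow
  obtain ⟨y, hy, x, hx, hyx⟩ := Ideal.isCoprime_iff_exists.1 hcop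
  refine not_dvd_differentIdeal_of_intTrace_not_mem ℤ (p := span {((p : ℤ)) ^ s})
    (P ^ (e * s)) (Q ^ s) ?_ x hx ?_
  · rw [hmul, Ideal.map_span, Set.image_singleton]
    simp
  · intro htr
    rw [Algebra.intTrace_eq_trace, mem_span_singleton] at htr
    set b := RingOfIntegers.basis K with hb
    have hcard : Fintype.card (Module.Free.ChooseBasisIndex ℤ (𝓞 K)) < p ^ s := by
      rw [← finrank_eq_card_chooseBasisIndex, RingOfIntegers.rank]
      exact hs
    set A0 := Algebra.leftMulMatrix b x with hA0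
    set A : Matrix _ _ (ZMod (p ^ s)) := A0.map (Int.castRingHom (ZMod (p ^ s))) with hA
    have hxx : (p : 𝓞 K) ^ s ∣ x * x - x := by
      rw [← mem_span_singleton, ← hmul]
      have : x * x - x = y * (-x) := by
        have : x = 1 - y := by rw [← hyx]; ring
        rw [this]; ring
      rw [this]
      exact mul_mem_mul hy (neg_mem hx)
    obtain ⟨c, hc⟩ := hxx
    have hAA : A * A = A := by
      have h1 : A0 * A0 - A0 = (p : ℤ) ^ s • Algebra.leftMulMatrix b c := by
        rw [hA0, ← map_mul, ← map_sub, hc, ← map_zsmul]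
        congr 1
        simp
      have h2 : (A0 * A0 - A0).map (Int.castRingHom (ZMod (p ^ s))) = 0 := by
        rw [h1]
        ext i j
        rw [Matrix.map_apply, Matrix.smul_apply, smul_eq_mul, map_mul, map_pow]
        have h3 : (Int.castRingHom (ZMod (p ^ s))) ((p : ℕ) : ℤ) ^ s = 0 := by
          rw [eq_intCast, Int.cast_natCast]
          have := ZMod.natCast_self (p ^ s)
          rwa [Nat.cast_pow] at this
        rw [h3, zero_mul]
        rfl
      have h3 : A * A - A = 0 := by
        rw [← h2, hA, ← Matrix.map_mul]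
        ext i j
        simp
      exact sub_eq_zero.1 h3
    have hAt : A.trace = 0 := by
      rw [Algebra.trace_eq_matrix_trace b x, ← hA0] at htr
      have h1 : A.trace = ((A0.trace : ℤ) : ZMod (p ^ s)) := by
        rw [hA]
        simp [Matrix.trace]
      rw [h1, ZMod.intCast_zmod_eq_zero_iff_dvd]
      exact_mod_cast htr
    have hAz := Pool.Agent.Helper14.VW.idem_eq_zero p hcard A hAA hAt
    have hdiv : ∀ i, ((p : ℤ)) ^ s ∣ b.repr x i := by
      intro i
      have h1 := Algebra.leftMulMatrix_mulVec_repr b x 1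
      rw [mul_one] at h1
      rw [← h1, Matrix.mulVec, dotProduct]
      refine Finset.dvd_sum fun j _ => ?_
      refine Dvd.dvd.mul_right ?_ _
      have h2 : A i j = 0 := by rw [hAz]; rfl
      have h3 : ((A0 i j : ℤ) : ZMod (p ^ s)) = 0 := h2
      rw [ZMod.intCast_zmod_eq_zero_iff_dvd] at h3
      exact_mod_cast h3
    have hxP : x ∈ P := by
      have h1 : x ∈ span {((p : 𝓞 K)) ^ s} := by
        rw [← b.sum_repr x]
        refine sum_mem fun i _ => ?_
        obtain ⟨d, hd⟩ := hdiv i
        rw [hd, mem_span_singleton]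
        refine ⟨d • b i, ?_⟩
        simp [zsmul_eq_mul, mul_assoc]
      rw [← hmul] at h1
      have h2 : P ^ (e * s) * Q ^ s ≤ P ^ (e * s) := Ideal.mul_le_left
      have h3 : P ^ (e * s) ≤ P := Ideal.pow_le_self (Nat.mul_ne_zero he hs0)
      exact h3 (h2 h1)
    have hyP : y ∈ P := (Ideal.pow_le_self (Nat.mul_ne_zero he hs0)) hy
    apply hP1
    rw [Ideal.eq_top_iff_one, ← hyx]
    exact add_mem hyP hxP

/-- membership in `primesOverFinset` -/
theorem a1_mem_primesOver [Fact p.Prime] (P : Ideal (𝓞 K)) :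
    P ∈ IsDedekindDomain.primesOverFinset (span {(p : ℤ)}) (𝓞 K) ↔
      P.IsPrime ∧ P.LiesOver (span {(p : ℤ)}) := by
  have hp : Prime (p : ℤ) := Nat.prime_iff_prime_int.1 Fact.out
  have hp0 : span {(p : ℤ)} ≠ ⊥ := by simpa using hp.ne_zero
  have : (span {(p : ℤ)}).IsMaximal :=
    ((Ideal.span_singleton_prime hp.ne_zero).mpr hp).isMaximal hp0
  rw [IsDedekindDomain.mem_primesOverFinset_iff hp0]
  rfl

theorem a1_prime [Fact p.Prime] {P : Ideal (𝓞 K)}
    (hP : P ∈ IsDedekindDomain.primesOverFinset (span {(p : ℤ)}) (𝓞 K)) : Prime P := by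
  rw [a1_mem_primesOver] at hP
  have hp : Prime (p : ℤ) := Nat.prime_iff_prime_int.1 Fact.out
  refine Ideal.prime_of_isPrime ?_ hP.1
  rintro rfl
  have h1 := hP.2.over
  have h2 : ((p : ℤ)) ∈ Ideal.under ℤ (⊥ : Ideal (𝓞 K)) := by
    rw [← h1]
    exact mem_span_singleton_self _
  rw [Ideal.under_def, Ideal.mem_comap, Ideal.mem_bot] at h2
  have h3 : ((p : ℤ) : 𝓞 K) = 0 := by simpa using h2
  exact hp.ne_zero (by exact_mod_cast h3)

/-- the exponent of `p` in the norm of an ideal -/
theorem a1_vnorm [Fact p.Prime] (I : Ideal (𝓞 K)) (hI : I ≠ 0) :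
    (absNorm I).factorization p =
      ∑ P ∈ IsDedekindDomain.primesOverFinset (span {(p : ℤ)}) (𝓞 K),
        multiplicity P I * (absNorm P).factorization p := by
  classical
  induction I using UniqueFactorizationMonoid.induction_on_prime with
  | h₁ => exact absurd rfl hI
  | h₂ I hu =>
    have h1 : I = 1 := by
      rw [Ideal.isUnit_iff] at hu
      rw [hu, Ideal.one_eq_top]
    subst h1
    rw [map_one, Nat.factorization_one, Finsupp.zero_apply, eq_comm]
    refine Finset.sum_eq_zero fun P hP => ?_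
    have : multiplicity P 1 = 0 := by
      rw [multiplicity_eq_zero]
      exact fun h => (a1_prime K p hP).not_isUnit (isUnit_of_dvd_one h)
    rw [this, zero_mul]
  | h₃ I Q hI0 hQ ih =>
    rw [map_mul, Nat.factorization_mul (absNorm_ne_zero_of_nonZeroDivisors ⟨Q, by
        rw [mem_nonZeroDivisors_iff_ne_zero]; exact hQ.ne_zero⟩)
      (absNorm_ne_zero_of_nonZeroDivisors ⟨I, by
        rw [mem_nonZeroDivisors_iff_ne_zero]; exact hI0⟩), Finsupp.add_apply, ih hI0]
    have hm : ∀ P ∈ IsDedekindDomain.primesOverFinset (span {(p : ℤ)}) (𝓞 K),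
        multiplicity P (Q * I) = (if P = Q then 1 else 0) + multiplicity P I := by
      intro P hP
      have hPp := a1_prime K p hP
      rw [multiplicity_mul hPp (FiniteMultiplicity.of_prime_left hPp
        (mul_ne_zero hQ.ne_zero hI0))]
      congr 1
      split_ifs with h
      · subst h; exact multiplicity_self
      · rw [multiplicity_eq_zero]
        intro hd
        exact h (associated_iff_eq.1 ((hPp.dvd_prime_iff_associated hQ).1 hd))
    have hsum : ∑ P ∈ IsDedekindDomain.primesOverFinset (span {(p : ℤ)}) (𝓞 K),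
        multiplicity P (Q * I) * (absNorm P).factorization p =
        ∑ P ∈ IsDedekindDomain.primesOverFinset (span {(p : ℤ)}) (𝓞 K),
        ((if P = Q then 1 else 0) * (absNorm P).factorization p +
          multiplicity P I * (absNorm P).factorization p) :=
      Finset.sum_congr rfl fun P hP => by rw [hm P hP, add_mul]
    rw [hsum, Finset.sum_add_distrib]
    congr 1
    simp only [ite_mul, one_mul, zero_mul]
    rw [Finset.sum_ite_eq']
    split_ifs with h
    · rfl
    · refine Nat.factorization_eq_zero_of_not_dvd fun hd => ?_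
      obtain ⟨P, hP1, hP2, hP3⟩ := exists_isMaximal_dvd_of_dvd_absNorm' (Fact.out : p.Prime) Q hd
      apply h
      have hPb : P ≠ ⊥ := by
        rintro rfl
        exact hQ.ne_zero (zero_dvd_iff.1 hP3)
      have hPp : Prime P := Ideal.prime_of_isPrime hPb hP1.isPrime
      have h1 : P = Q := associated_iff_eq.1 ((hPp.dvd_prime_iff_associated hQ).1 hP3)
      rw [a1_mem_primesOver, ← h1]
      exact ⟨hP1.isPrime, ⟨hP2.symm⟩⟩

/-- the sum of `e f` -/
theorem a1_sum [Fact p.Prime] : Module.finrank ℚ K =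
      ∑ P ∈ IsDedekindDomain.primesOverFinset (span {(p : ℤ)}) (𝓞 K),
        multiplicity P (span {(p : 𝓞 K)}) * (absNorm P).factorization p := by
  have hp : p.Prime := Fact.out
  rw [← a1_vnorm K p _ (by
    rw [Ideal.zero_eq_bot, Ne, span_singleton_eq_bot]
    exact_mod_cast hp.ne_zero)]
  rw [absNorm_span_natCast, Nat.factorization_pow, Finsupp.smul_apply, hp.factorization_self,
    smul_eq_mul, mul_one, RingOfIntegers.rank]

/-- the multiplicity of a prime above `p` in the different -/
theorem a1_mult [Fact p.Prime] {s : ℕ} (hs : Module.finrank ℚ K < p ^ s) {P : Ideal (𝓞 K)}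
    (hP : P ∈ IsDedekindDomain.primesOverFinset (span {(p : ℤ)}) (𝓞 K)) :
    0 < multiplicity P (span {(p : 𝓞 K)}) ∧
    multiplicity P (differentIdeal ℤ (𝓞 K)) < multiplicity P (span {(p : 𝓞 K)}) * s := by
  have hPp := a1_prime K p hP
  have hp : p.Prime := Fact.out
  have hp0 : span {(p : 𝓞 K)} ≠ 0 := by
    rw [Ideal.zero_eq_bot, Ne, span_singleton_eq_bot]
    exact_mod_cast hp.ne_zero
  have hfin := FiniteMultiplicity.of_prime_left hPp hp0
  have hdvd : P ∣ span {(p : 𝓞 K)} := by
    rw [a1_mem_primesOver] at hP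
    rw [Ideal.dvd_span_singleton]
    have h1 := hP.2.over
    have h2 : ((p : ℤ)) ∈ Ideal.under ℤ P := by
      rw [← h1]
      exact mem_span_singleton_self _
    rw [Ideal.under_def, Ideal.mem_comap] at h2
    simpa using h2
  have hpos : 0 < multiplicity P (span {(p : 𝓞 K)}) := by
    rw [Nat.pos_iff_ne_zero, Ne, multiplicity_eq_zero, not_not]
    exact hdvd
  obtain ⟨Q, hQ1, hQ2⟩ := hfin.exists_eq_pow_mul_and_not_dvd
  refine ⟨hpos, ?_⟩
  have hfd := FiniteMultiplicity.of_prime_left hPp (differentIdeal_ne_bot (A := ℤ) (B := 𝓞 K))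
  rw [hfd.multiplicity_lt_iff_not_dvd]
  refine a1_not_dvd K p hs P Q _ hpos.ne' ?_ hQ1.symm ?_
  · have hmax : P.IsMaximal := (Ideal.isPrime_of_prime hPp).isMaximal hPp.ne_zero
    rw [Ideal.isCoprime_iff_sup_eq]
    by_contra h
    have h1 : P = P ⊔ Q := hmax.eq_of_le h le_sup_left
    apply hQ2
    rw [Ideal.dvd_iff_le, h1]
    exact le_sup_right
  · exact (Ideal.isPrime_of_prime hPp).ne_top

end

/-- VW-A1 -/
theorem vD_add_sum_inertia_le (K : Type) [Field K] [NumberField K] (p : ℕ) [Fact p.Prime]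
    (hp : Module.finrank ℚ K < p) :
    vD K p + resDim K p ≤ Module.finrank ℚ K := by
  have hp' : Module.finrank ℚ K < p ^ 1 := by rwa [pow_one]
  have h0 := a1_vnorm K p (differentIdeal ℤ (𝓞 K)) (differentIdeal_ne_bot (A := ℤ) (B := 𝓞 K))
  rw [absNorm_differentIdeal K] at h0
  rw [a1_sum K p, vD, h0, resDim, ← Finset.sum_add_distrib]
  refine Finset.sum_le_sum fun P hP => ?_
  have h1 := (a1_mult K p hp' hP).2
  rw [mul_one] at h1
  calc _ = (multiplicity P (differentIdeal ℤ (𝓞 K)) + 1) * (absNorm P).factorization p := by ring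
    _ ≤ _ := Nat.mul_le_mul_right _ h1

theorem vD_le (K : Type) [Field K] [NumberField K] (p : ℕ) [Fact p.Prime] {s : ℕ}
    (hp : Module.finrank ℚ K < p ^ s) : vD K p ≤ Module.finrank ℚ K * s := by
  have h0 := a1_vnorm K p (differentIdeal ℤ (𝓞 K)) (differentIdeal_ne_bot (A := ℤ) (B := 𝓞 K))
  rw [absNorm_differentIdeal K] at h0
  rw [vD, h0]
  conv_rhs => rw [a1_sum K p, Finset.sum_mul]
  refine Finset.sum_le_sum fun P hP => ?_
  have h1 := (a1_mult K p hp hP).2
  calc _ ≤ (multiplicity P (span {(p : 𝓞 K)}) * s) * (absNorm P).factorization p :=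
        Nat.mul_le_mul_right _ h1.le
    _ = _ := by ring

/-- VW-A3: the primes `p ≤ n` contribute only a bounded factor to the discriminant. -/
theorem discr_small_primes (k n : ℕ) : ∃ c : ℕ, 0 < c ∧ ∀ (K : Type) [Field K] [NumberField K],
    Module.finrank ℚ K = k →
    (discr K).natAbs ≤ c * ∏ p ∈ (discr K).natAbs.primeFactors.filter (n < ·), p ^ vD K p := by
  refine ⟨∏ p ∈ Finset.Icc 1 n, p ^ (k * k), ?_, ?_⟩
  · exact Finset.prod_pos fun p hp => pow_pos (Finset.mem_Icc.1 hp).1 _
  intro K _ _ hK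
  have h0 : (discr K).natAbs ≠ 0 := by
    rw [Int.natAbs_ne_zero]
    exact discr_ne_zero K
  have h1 : (discr K).natAbs = ∏ p ∈ (discr K).natAbs.primeFactors, p ^ vD K p :=
    (Nat.prod_factorization_pow_eq_self h0).symm
  conv_lhs => rw [h1, ← Finset.prod_filter_mul_prod_filter_not _ (n < ·), mul_comm]
  refine Nat.mul_le_mul_right _ ?_
  calc ∏ p ∈ (discr K).natAbs.primeFactors.filter (fun p => ¬ n < p), p ^ vD K p
      ≤ ∏ p ∈ (discr K).natAbs.primeFactors.filter (fun p => ¬ n < p), p ^ (k * k) := by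
        refine Finset.prod_le_prod' fun p hp => ?_
        rw [Finset.mem_filter, Nat.mem_primeFactors] at hp
        have hpp : Fact p.Prime := ⟨hp.1.1⟩
        refine Nat.pow_le_pow_right hp.1.1.pos ?_
        have := vD_le K p (s := k) (by rw [hK]; exact Nat.lt_pow_self hp.1.1.one_lt)
        rwa [hK] at this
    _ ≤ _ := by
        refine Finset.prod_le_prod_of_subset_of_one_le' ?_ ?_
        · intro p hp
          rw [Finset.mem_filter, Nat.mem_primeFactors] at hp
          rw [Finset.mem_Icc]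
          exact ⟨hp.1.1.one_lt.le, not_lt.1 hp.2⟩
        · intro p hp _
          exact Nat.one_le_pow _ _ (Finset.mem_Icc.1 hp).1

end Pool.Agent.Helper12.VW
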